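import Pool.Agent.Helper71.FX.St

/-!
# Project FX, module SA : uniform spatial tails for a Bessel system of translates
-/

set_option autoImplicit false

open MeasureTheory Filter Topology
open scoped FourierTransform RealInnerProductSpace Matrix ComplexConjugate ENNReal

noncomputable section

namespace Pool.Agent.Helper89.FX

open Wav Pool.Agent.Helper71.FX

private theorem fin_pts {n : ℕ} {M : Matrix (Fin n) (Fin n) ℝ} (hM : M.det ≠ 0) (R : ℝ) :
    {m : Fin n → ℤ | ‖act M (ivec m)‖ ≤ R}.Finite := by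
  have hu : IsUnit M.det := isUnit_iff_ne_zero.2 hM
  obtain ⟨C, hC0, hC⟩ : ∃ C : ℝ, 0 ≤ C ∧ ∀ x : E n, ‖act M⁻¹ x‖ ≤ C * ‖x‖ :=
    ⟨‖LinearMap.toContinuousLinearMap (Matrix.toEuclideanLin M⁻¹ : E n →ₗ[ℝ] E n)‖,
      norm_nonneg _, fun x => ContinuousLinearMap.le_opNorm
        (LinearMap.toContinuousLinearMap (Matrix.toEuclideanLin M⁻¹ : E n →ₗ[ℝ] E n)) x⟩
  refine (Set.finite_Icc (fun _ => -⌈C * R⌉ : Fin n → ℤ) (fun _ => ⌈C * R⌉)).subset ?_
  intro m hm
  have hm' : ‖act M (ivec m)‖ ≤ R := hm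
  have h1 : (ivec m : E n) = act M⁻¹ (act M (ivec m)) := by
    rw [← act_mul, Matrix.nonsing_inv_mul _ hu, act_one]
  have h2 : ‖(ivec m : E n)‖ ≤ C * R := by
    rw [h1]
    exact (hC _).trans (mul_le_mul_of_nonneg_left hm' hC0)
  have h3 : ∀ i, |(m i : ℝ)| ≤ C * R := by
    intro i
    have h4 := (PiLp.norm_apply_le (ivec m : E n) i).trans h2
    rw [Real.norm_eq_abs] at h4
    exact h4
  rw [Set.mem_Icc, Pi.le_def, Pi.le_def]
  refine ⟨fun i => ?_, fun i => ?_⟩
  · have h5 : (-(m i : ℝ)) ≤ ⌈C * R⌉ := ((neg_le_abs _).trans (h3 i)).trans (Int.le_ceil _)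
    have h6 : -(m i) ≤ ⌈C * R⌉ := by exact_mod_cast h5
    omega
  · have h5 : (m i : ℝ) ≤ ⌈C * R⌉ := ((le_abs_self _).trans (h3 i)).trans (Int.le_ceil _)
    exact_mod_cast h5

private theorem ivec_sub {n : ℕ} (k m : Fin n → ℤ) : (ivec (k - m) : E n) = ivec k - ivec m := by
  ext i
  simp [ivec]

private theorem count {n : ℕ} {M : Matrix (Fin n) (Fin n) ℝ} (hM : M.det ≠ 0) (R : ℝ) :
    ∃ c : ℕ, ∀ (z : E n) (s : Finset (Fin n → ℤ)),
      (∀ k ∈ s, ‖act M (ivec k) - z‖ ≤ R) → s.card ≤ c := by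
  refine ⟨(fin_pts hM (2 * R)).toFinset.card, fun z s hs => ?_⟩
  rcases s.eq_empty_or_nonempty with rfl | ⟨k₀, hk₀⟩
  · simp
  · refine Finset.card_le_card_of_injOn (fun k => k - k₀) ?_ ?_
    · intro k hk
      have h1 : ‖act M (ivec (k - k₀))‖ ≤ 2 * R := by
        rw [ivec_sub, act_sub]
        have h2 : act M (ivec k) - act M (ivec k₀) =
            (act M (ivec k) - z) - (act M (ivec k₀) - z) := by abel
        rw [h2]
        have h3 := norm_sub_le (act M (ivec k) - z) (act M (ivec k₀) - z)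
        have h4 := hs k hk
        have h5 := hs k₀ hk₀
        linarith
      simpa using h1
    · intro a _ b _ hab
      exact sub_left_injective hab

private theorem inner_toLp {n : ℕ} {a b : E n → ℂ} (ha : MemLp a 2 (volume : Measure (E n)))
    (hb : MemLp b 2 (volume : Measure (E n))) :
    inner ℂ (ha.toLp a) (hb.toLp b) = ∫ x, conj (a x) * b x := by
  rw [L2.inner_def]
  refine integral_congr_ae ?_
  filter_upwards [ha.coeFn_toLp, hb.coeFn_toLp] with x h1 h2
  rw [h1, h2, RCLike.inner_apply, mul_comm]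

private theorem norm_toLp_sq {n : ℕ} {a : E n → ℂ} (ha : MemLp a 2 (volume : Measure (E n))) :
    ‖ha.toLp a‖ ^ 2 = ∫ x, ‖a x‖ ^ 2 := by
  have h1 := inner_toLp ha ha
  have h2 : (fun x => conj (a x) * a x) = fun x => ((‖a x‖ ^ 2 : ℝ) : ℂ) := by
    funext x
    rw [RCLike.conj_mul]
    push_cast
    rfl
  have h3 : ∫ x, ((‖a x‖ ^ 2 : ℝ) : ℂ) = ((∫ x, ‖a x‖ ^ 2 : ℝ) : ℂ) := integral_complex_ofReal
  rw [h2, h3, inner_self_eq_norm_sq_to_K] at h1
  refine Complex.ofReal_injective ?_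
  rw [Complex.ofReal_pow]
  exact h1

private theorem cs {n : ℕ} {a b : E n → ℂ} (ha : MemLp a 2 (volume : Measure (E n)))
    (hb : MemLp b 2 (volume : Measure (E n))) :
    ‖∫ x, conj (a x) * b x‖ ^ 2 ≤ (∫ x, ‖a x‖ ^ 2) * ∫ x, ‖b x‖ ^ 2 := by
  rw [← inner_toLp ha hb, ← norm_toLp_sq ha, ← norm_toLp_sq hb, ← mul_pow]
  exact pow_le_pow_left₀ (norm_nonneg _) (norm_inner_le_norm _ _) 2

private theorem int_prod {n : ℕ} {a b : E n → ℂ} (ha : MemLp a 2 (volume : Measure (E n)))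
    (hb : MemLp b 2 (volume : Measure (E n))) : Integrable (fun x => conj (a x) * b x) :=
  (ha.star).integrable_mul hb

private theorem int_sq {n : ℕ} {a : E n → ℂ} (ha : MemLp a 2 (volume : Measure (E n))) :
    Integrable (fun x => ‖a x‖ ^ 2) :=
  (memLp_two_iff_integrable_sq_norm ha.1).1 ha

private theorem tail {n : ℕ} {g : E n → ℝ} (hg : Integrable g) {δ : ℝ} (hδ : 0 < δ) :
    ∃ R : ℕ, ∫ x in {x : E n | (R : ℝ) < ‖x‖}, g x < δ := by
  have h := tendsto_setIntegral_of_antitone (s := fun R : ℕ => {x : E n | (R : ℝ) < ‖x‖}) (f := g)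
    (μ := (volume : Measure (E n)))
    (fun R => measurableSet_lt measurable_const measurable_norm)
    (fun a b hab x hx => lt_of_le_of_lt (by exact_mod_cast hab) (show (b : ℝ) < ‖x‖ from hx))
    ⟨0, hg.integrableOn⟩
  have h2 : ⋂ R : ℕ, {x : E n | (R : ℝ) < ‖x‖} = ∅ := by
    rw [Set.eq_empty_iff_forall_notMem]
    intro x hx
    obtain ⟨R, hR⟩ := exists_nat_ge ‖x‖
    have h3 : (R : ℝ) < ‖x‖ := Set.mem_iInter.1 hx R
    linarith
  rw [h2, setIntegral_empty] at h
  exact (h.eventually (gt_mem_nhds hδ)).exists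

theorem pSA : StSA := by
  intro n M f h hM hf hh hB ε hε
  obtain ⟨R₁, hR₁⟩ := tail (int_sq hf) (show 0 < ε / 4 by linarith)
  obtain ⟨c, hc⟩ := count hM (R₁ : ℝ)
  set A : ℝ := ∫ x, ‖f x‖ ^ 2 with hA
  have hA0 : 0 ≤ A := integral_nonneg fun x => sq_nonneg _
  have hden : 0 < 4 * (A * c + 1) := by positivity
  obtain ⟨R₂, hR₂⟩ := tail (int_sq hh) (show 0 < ε / (4 * (A * c + 1)) from div_pos hε hden)
  have hT0 : 0 ≤ ∫ x in {x : E n | (R₂ : ℝ) < ‖x‖}, ‖h x‖ ^ 2 :=
    integral_nonneg fun x => sq_nonneg _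
  set T : ℝ := ∫ x in {x : E n | (R₂ : ℝ) < ‖x‖}, ‖h x‖ ^ 2 with hT
  have hfin : 2 * A * (c * T) ≤ ε / 2 := by
    rw [lt_div_iff₀ hden] at hR₂
    nlinarith
  refine ⟨R₁ + R₂ + 1, by positivity, fun y => ?_⟩
  have mB : MeasurableSet {x : E n | ‖x‖ ≤ (R₁ : ℝ)} :=
    measurableSet_le measurable_norm measurable_const
  have mC : MeasurableSet {x : E n | (R₁ : ℝ) < ‖x‖} :=
    measurableSet_lt measurable_const measurable_norm
  set f₁ : E n → ℂ := {x : E n | ‖x‖ ≤ (R₁ : ℝ)}.indicator f with hf₁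
  set f₂ : E n → ℂ := {x : E n | (R₁ : ℝ) < ‖x‖}.indicator f with hf₂
  have hm1 : MemLp f₁ 2 (volume : Measure (E n)) := hf.indicator mB
  have hm2 : MemLp f₂ 2 (volume : Measure (E n)) := hf.indicator mC
  have hsum : ∀ x, f x = f₁ x + f₂ x := by
    intro x
    by_cases hx : ‖x‖ ≤ (R₁ : ℝ)
    · rw [hf₁, hf₂, Set.indicator_of_mem (show x ∈ {x : E n | ‖x‖ ≤ (R₁ : ℝ)} from hx),
        Set.indicator_of_notMem (show x ∉ {x : E n | (R₁ : ℝ) < ‖x‖} from not_lt.2 hx), add_zero]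
    · rw [hf₁, hf₂, Set.indicator_of_notMem (show x ∉ {x : E n | ‖x‖ ≤ (R₁ : ℝ)} from hx),
        Set.indicator_of_mem (show x ∈ {x : E n | (R₁ : ℝ) < ‖x‖} from not_le.1 hx), zero_add]
  have tr : ∀ (g : E n → ℂ) (z : E n), MemLp g 2 (volume : Measure (E n)) →
      MemLp (fun x => g (x - z)) 2 (volume : Measure (E n)) := fun g z hg =>
    hg.comp_measurePreserving (measurePreserving_sub_right volume z)
  have hq2 : ∫ x, ‖f₂ (x - y)‖ ^ 2 ≤ ε / 4 := by
    rw [integral_sub_right_eq_self (fun x => ‖f₂ x‖ ^ 2) y]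
    have h1 : (fun x => ‖f₂ x‖ ^ 2) = {x : E n | (R₁ : ℝ) < ‖x‖}.indicator fun x => ‖f x‖ ^ 2 := by
      funext x
      by_cases hx : x ∈ {x : E n | (R₁ : ℝ) < ‖x‖}
      · rw [hf₂, Set.indicator_of_mem hx, Set.indicator_of_mem hx]
      · rw [hf₂, Set.indicator_of_notMem hx, Set.indicator_of_notMem hx]
        simp
    rw [h1, integral_indicator mC]
    exact hR₁.le
  have hq1 : ∫ x, ‖f₁ (x - y)‖ ^ 2 ≤ A := by
    rw [integral_sub_right_eq_self (fun x => ‖f₁ x‖ ^ 2) y]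
    refine integral_mono (int_sq hm1) (int_sq hf) fun x => ?_
    by_cases hx : x ∈ {x : E n | ‖x‖ ≤ (R₁ : ℝ)}
    · simp only [hf₁, Set.indicator_of_mem hx]
      exact le_refl _
    · simp only [hf₁, Set.indicator_of_notMem hx]
      simp
  -- the functions `G k`
  set G : (Fin n → ℤ) → E n → ℝ := fun k x =>
    {x : E n | ‖x + act M (ivec k) - y‖ ≤ (R₁ : ℝ)}.indicator (fun x => ‖h x‖ ^ 2) x with hG
  have mG : ∀ k, MeasurableSet {x : E n | ‖x + act M (ivec k) - y‖ ≤ (R₁ : ℝ)} := fun k =>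
    measurableSet_le (((measurable_id.add_const _).sub_const _).norm) measurable_const
  have iG : ∀ k, Integrable (G k) := fun k => (int_sq hh).indicator (mG k)
  have hb : ∀ k : Fin n → ℤ, ‖∫ x, conj (f₁ (x - y)) * h (x - act M (ivec k))‖ ^ 2 ≤
      A * ∫ x, G k x := by
    intro k
    have m1 : MeasurableSet {x : E n | ‖x - y‖ ≤ (R₁ : ℝ)} :=
      measurableSet_le ((measurable_id.sub_const _).norm) measurable_const
    have h1 : MemLp ({x : E n | ‖x - y‖ ≤ (R₁ : ℝ)}.indicator fun x => h (x - act M (ivec k))) 2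
        (volume : Measure (E n)) := (tr h _ hh).indicator m1
    have h2 : ∫ x, conj (f₁ (x - y)) * h (x - act M (ivec k)) =
        ∫ x, conj (f₁ (x - y)) *
          {x : E n | ‖x - y‖ ≤ (R₁ : ℝ)}.indicator (fun x => h (x - act M (ivec k))) x := by
      refine integral_congr_ae (Eventually.of_forall fun x => ?_)
      by_cases hx : ‖x - y‖ ≤ (R₁ : ℝ)
      · simp only [Set.indicator_of_mem (show x ∈ {x : E n | ‖x - y‖ ≤ (R₁ : ℝ)} from hx)]
      · have h3 : f₁ (x - y) = 0 := Set.indicator_of_notMem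
          (show x - y ∉ {x : E n | ‖x‖ ≤ (R₁ : ℝ)} from hx) f
        simp only [h3, map_zero, zero_mul]
    rw [h2]
    refine (cs (tr f₁ y hm1) h1).trans ?_
    have h4 : ∫ x, ‖{x : E n | ‖x - y‖ ≤ (R₁ : ℝ)}.indicator
        (fun x => h (x - act M (ivec k))) x‖ ^ 2 = ∫ x, G k x := by
      rw [← integral_sub_right_eq_self (fun x => G k x) (act M (ivec k))]
      refine integral_congr_ae (Eventually.of_forall fun x => ?_)
      have h6 : x - act M (ivec k) + act M (ivec k) - y = x - y := by abel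
      by_cases hx : ‖x - y‖ ≤ (R₁ : ℝ)
      · have h5 : x - act M (ivec k) ∈ {x : E n | ‖x + act M (ivec k) - y‖ ≤ (R₁ : ℝ)} := by
          change ‖x - act M (ivec k) + act M (ivec k) - y‖ ≤ (R₁ : ℝ)
          rw [h6]
          exact hx
        simp only [hG, Set.indicator_of_mem (show x ∈ {x : E n | ‖x - y‖ ≤ (R₁ : ℝ)} from hx),
          Set.indicator_of_mem h5]
      · have h5 : x - act M (ivec k) ∉ {x : E n | ‖x + act M (ivec k) - y‖ ≤ (R₁ : ℝ)} := by
          intro h7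
          apply hx
          have h8 : ‖x - act M (ivec k) + act M (ivec k) - y‖ ≤ (R₁ : ℝ) := h7
          rwa [h6] at h8
        simp only [hG, Set.indicator_of_notMem (show x ∉ {x : E n | ‖x - y‖ ≤ (R₁ : ℝ)} from hx),
          Set.indicator_of_notMem h5]
        simp
    rw [h4]
    exact mul_le_mul_of_nonneg_right hq1 (integral_nonneg fun x =>
      Set.indicator_nonneg (fun x _ => sq_nonneg _) x)
  -- the sum of the `G k`
  have hGs : ∀ s : Finset (Fin n → ℤ), (∀ k ∈ s, (R₁ : ℝ) + R₂ + 1 < ‖act M (ivec k) - y‖) →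
      ∑ k ∈ s, ∫ x, G k x ≤ c * T := by
    intro s hs
    rw [← integral_finsetSum s fun k _ => iG k]
    have mD : MeasurableSet {x : E n | (R₂ : ℝ) < ‖x‖} :=
      measurableSet_lt measurable_const measurable_norm
    rw [hT, ← integral_indicator mD, ← integral_const_mul]
    refine integral_mono (integrable_finsetSum s fun k _ => iG k)
      (((int_sq hh).indicator mD).const_mul _) fun x => ?_
    have h1 : ∑ k ∈ s, G k x =
        ((s.filter fun k => ‖x + act M (ivec k) - y‖ ≤ (R₁ : ℝ)).card : ℝ) * ‖h x‖ ^ 2 := by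
      rw [← nsmul_eq_mul, ← Finset.sum_const, Finset.sum_filter]
      refine Finset.sum_congr rfl fun k _ => ?_
      by_cases hx : ‖x + act M (ivec k) - y‖ ≤ (R₁ : ℝ)
      · rw [if_pos hx]
        exact Set.indicator_of_mem
          (show x ∈ {x : E n | ‖x + act M (ivec k) - y‖ ≤ (R₁ : ℝ)} from hx) _
      · rw [if_neg hx]
        exact Set.indicator_of_notMem
          (show x ∉ {x : E n | ‖x + act M (ivec k) - y‖ ≤ (R₁ : ℝ)} from hx) _
    simp only
    rw [h1]
    by_cases hx : (R₂ : ℝ) < ‖x‖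
    · rw [Set.indicator_of_mem (show x ∈ {x : E n | (R₂ : ℝ) < ‖x‖} from hx)]
      refine mul_le_mul_of_nonneg_right ?_ (sq_nonneg _)
      have h2 := hc (y - x) (s.filter fun k => ‖x + act M (ivec k) - y‖ ≤ (R₁ : ℝ)) (by
        intro k hk
        have h3 := (Finset.mem_filter.1 hk).2
        have h4 : act M (ivec k) - (y - x) = x + act M (ivec k) - y := by abel
        rw [h4]
        exact h3)
      exact_mod_cast h2
    · have h2 : (s.filter fun k => ‖x + act M (ivec k) - y‖ ≤ (R₁ : ℝ)) = ∅ := by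
        rw [Finset.filter_eq_empty_iff]
        intro k hk h3
        have h4 := hs k hk
        have h5 : act M (ivec k) - y = (x + act M (ivec k) - y) - x := by abel
        have h6 := norm_sub_le (x + act M (ivec k) - y) x
        rw [← h5] at h6
        linarith
      rw [h2, Set.indicator_of_notMem (show x ∉ {x : E n | (R₂ : ℝ) < ‖x‖} from hx)]
      simp
  obtain ⟨s2, t2⟩ := hB (fun x => f₂ (x - y)) (tr f₂ y hm2)
  refine tsum_le_of_sum_le' hε.le fun s => ?_
  have hpt : ∀ k : Fin n → ℤ, ‖∫ x, conj (f (x - y)) * h (x - act M (ivec k))‖ ^ 2 ≤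
      2 * ‖∫ x, conj (f₂ (x - y)) * h (x - act M (ivec k))‖ ^ 2 +
        2 * (A * ∫ x, G k x) := by
    intro k
    have h1 : ∫ x, conj (f (x - y)) * h (x - act M (ivec k)) =
        (∫ x, conj (f₁ (x - y)) * h (x - act M (ivec k))) +
          ∫ x, conj (f₂ (x - y)) * h (x - act M (ivec k)) := by
      rw [← integral_add (int_prod (tr f₁ y hm1) (tr h _ hh)) (int_prod (tr f₂ y hm2) (tr h _ hh))]
      refine integral_congr_ae (Eventually.of_forall fun x => ?_)
      simp only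
      rw [hsum, map_add, add_mul]
    rw [h1]
    have h2 := norm_add_le (∫ x, conj (f₁ (x - y)) * h (x - act M (ivec k)))
      (∫ x, conj (f₂ (x - y)) * h (x - act M (ivec k)))
    have h3 := hb k
    set p := ‖∫ x, conj (f₁ (x - y)) * h (x - act M (ivec k))‖
    set q := ‖∫ x, conj (f₂ (x - y)) * h (x - act M (ivec k))‖
    have h4 := pow_le_pow_left₀ (norm_nonneg _) h2 2
    nlinarith [sq_nonneg (p - q)]
  have h1 : ∑ k ∈ s, (if (R₁ : ℝ) + R₂ + 1 < ‖act M (ivec k) - y‖ then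
      ‖∫ x, conj (f (x - y)) * h (x - act M (ivec k))‖ ^ 2 else 0) ≤
      ∑ k ∈ s, (2 * ‖∫ x, conj (f₂ (x - y)) * h (x - act M (ivec k))‖ ^ 2 +
        (if (R₁ : ℝ) + R₂ + 1 < ‖act M (ivec k) - y‖ then 2 * (A * ∫ x, G k x) else 0)) := by
    refine Finset.sum_le_sum fun k _ => ?_
    split_ifs
    · exact hpt k
    · positivity
  refine h1.trans ?_
  rw [Finset.sum_add_distrib, ← Finset.mul_sum, ← Finset.sum_filter, ← Finset.mul_sum,
    ← Finset.mul_sum]
  have h2 : ∑ k ∈ s, ‖∫ x, conj (f₂ (x - y)) * h (x - act M (ivec k))‖ ^ 2 ≤ ε / 4 :=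
    ((s2.sum_le_tsum s fun k _ => sq_nonneg _).trans t2).trans hq2
  have h3 := hGs (s.filter fun k => (R₁ : ℝ) + R₂ + 1 < ‖act M (ivec k) - y‖)
    fun k hk => (Finset.mem_filter.1 hk).2
  have h4 := mul_le_mul_of_nonneg_left h3 hA0
  linarith

end Pool.Agent.Helper89.FX
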