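import Pool.Agent.Helper84.FX.StX

set_option autoImplicit false

namespace Pool.Agent.Helper89.FX

open Set
open Pool.Agent.Helper84.FX Pool.Agent.Helper72.FX

private theorem quad (A B C : ℂ) : HasDerivAt (fun s : ℂ => A + B * s + C * s ^ 2) B 0 := by
  have h1 : HasDerivAt (fun s : ℂ => A + B * s + C * s ^ 2)
      (0 + B * 1 + C * ((2 : ℕ) * (0 : ℂ) ^ (2 - 1) * 1)) 0 := by
    have ha : HasDerivAt (fun _ : ℂ => A) 0 0 := hasDerivAt_const _ _
    have hb : HasDerivAt (fun s : ℂ => B * s) (B * 1) 0 := (hasDerivAt_id _).const_mul B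
    have hc : HasDerivAt (fun s : ℂ => C * s ^ 2) (C * ((2 : ℕ) * (0 : ℂ) ^ (2 - 1) * 1)) 0 :=
      ((hasDerivAt_id (0 : ℂ)).pow 2).const_mul C
    exact (ha.add hb).add hc
  simpa using h1

private theorem dir (f : (Fin 10 → ℂ) → ℂ) (z : Fin 10 → ℂ) (j : Fin 10) (A B C : ℂ)
    (hf : DifferentiableAt ℂ f z)
    (h : ∀ s : ℂ, f (Function.update z j (z j + s)) = A + B * s + C * s ^ 2) :
    fderiv ℂ f z (Pi.single j 1) = B := by
  have h1 : HasDerivAt (fun s : ℂ => Function.update z j (z j + s)) (Pi.single j (1 : ℂ)) 0 := by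
    rw [hasDerivAt_pi]
    intro i
    by_cases hij : i = j
    · subst hij
      simp only [Function.update_self, Pi.single_eq_same]
      exact (hasDerivAt_id _).const_add _
    · simp only [Function.update_of_ne hij, Pi.single_eq_of_ne hij]
      exact hasDerivAt_const _ _
  have h4 : Function.update z j (z j + 0) = z := by simp
  have h5 : HasFDerivAt f (fderiv ℂ f z) (Function.update z j (z j + 0)) := by
    rw [h4]; exact hf.hasFDerivAt
  have h6 := h5.comp_hasDerivAt (0 : ℂ) h1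
  have h7 : HasDerivAt (f ∘ fun s : ℂ => Function.update z j (z j + s)) B 0 := by
    have : (f ∘ fun s : ℂ => Function.update z j (z j + s)) =
        fun s : ℂ => A + B * s + C * s ^ 2 := by
      funext s; exact h s
    rw [this]; exact quad A B C
  exact h6.unique h7

private theorem smE1 : ContDiff ℂ 1 EE1 := by
  unfold EE1 E1 nu
  fun_prop

private theorem smE2gen (KX KY KZ KK : ℂ → ℂ → ℂ → ℂ)
    (hx : ContDiff ℂ 1 (fun q : ℂ × ℂ × ℂ => KX q.1 q.2.1 q.2.2))
    (hy : ContDiff ℂ 1 (fun q : ℂ × ℂ × ℂ => KY q.1 q.2.1 q.2.2))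
    (hz : ContDiff ℂ 1 (fun q : ℂ × ℂ × ℂ => KZ q.1 q.2.1 q.2.2))
    (hk : ContDiff ℂ 1 (fun q : ℂ × ℂ × ℂ => KK q.1 q.2.1 q.2.2)) :
    ContDiff ℂ 1 (fun z : Fin 10 → ℂ =>
      -(z 6 * z 4 * KK (z 0) (z 1) (z 2)) + (z 8 - z 7) +
        z 5 * (z 2 * z 6 * KX (z 0) (z 1) (z 2) * z 8 + z 2 * z 6 * KY (z 0) (z 1) (z 2) * z 7 +
    z 2 * z 3 * z 7 * z 8 - 2 * z 6 * KZ (z 0) (z 1) (z 2) * z 9 - z 3 * z 9 ^ 2)) := by
  have hp : ContDiff ℂ 1 (fun z : Fin 10 → ℂ => (z 0, z 1, z 2)) := by fun_prop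
  have h1 : ContDiff ℂ 1 (fun z : Fin 10 → ℂ => KX (z 0) (z 1) (z 2)) := hx.comp hp
  have h2 : ContDiff ℂ 1 (fun z : Fin 10 → ℂ => KY (z 0) (z 1) (z 2)) := hy.comp hp
  have h3 : ContDiff ℂ 1 (fun z : Fin 10 → ℂ => KZ (z 0) (z 1) (z 2)) := hz.comp hp
  have h4 : ContDiff ℂ 1 (fun z : Fin 10 → ℂ => KK (z 0) (z 1) (z 2)) := hk.comp hp
  have c (i : Fin 10) : ContDiff ℂ 1 (fun z : Fin 10 → ℂ => z i) := contDiff_apply ℂ ℂ i
  have t1 := (((c 6).mul (c 4)).mul h4).neg.add ((c 8).sub (c 7))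
  have t2 := (((c 2).mul (c 6)).mul h1).mul (c 8)
  have t3 := (((c 2).mul (c 6)).mul h2).mul (c 7)
  have t4 := (((c 2).mul (c 3)).mul (c 7)).mul (c 8)
  have t5 := (((contDiff_const (c := (2 : ℂ))).mul (c 6)).mul h3).mul (c 9)
  have t6 := (c 3).mul ((c 9).pow 2)
  exact t1.add ((c 5).mul ((((t2.add t3).add t4).sub t5).sub t6))

private theorem smE2 (hKSM : StKSM) : ContDiff ℂ 1 EE2 := by
  obtain ⟨hx, hy, hz, hk, -⟩ := hKSM
  have hle : (1 : WithTop ℕ∞) ≤ ((⊤ : ℕ∞) : WithTop ℕ∞) := by exact_mod_cast le_top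
  have h := smE2gen kx ky kz kappa (hx.of_le hle) (hy.of_le hle) (hz.of_le hle) (hk.of_le hle)
  unfold EE2 E2
  exact h

theorem hTE : StTMC → StKSM → StGR → StTE := by
  intro hTMC hKSM hGR U hU h0
  have s1 := smE1
  have s2 := smE2 hKSM
  have hΩ : IsOpen (C10 U) := hU.preimage (continuous_apply (2 : Fin 10))
  have key : Tame {x | x ∈ C10 U ∧ (fun _ : Fin 10 → ℂ => (0 : Fin 0 → ℝ)) x = 0}
      (fun z => (EE1 z, EE2 z)) := by
    refine hTMC (Fin 10 → ℂ) (ℂ × ℂ) (Fin 0 → ℝ) (C10 U) (fun _ => 0) (fun z => (EE1 z, EE2 z)) hΩ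
      contDiffOn_const ?_ ?_
    · exact ((s1.restrict_scalars ℝ).prodMk (s2.restrict_scalars ℝ)).contDiffOn
    · intro z hz _ hg
      have e1 : EE1 z = 0 := congrArg Prod.fst hg
      have e2 : EE2 z = 0 := congrArg Prod.snd hg
      have hzU : z 2 ∈ U := hz
      have ht : z 2 ≠ 0 := fun h => h0 (h ▸ hzU)
      have hW : z ∈ WW U := ⟨hzU, e1, e2⟩
      have d1 : DifferentiableAt ℂ EE1 z := s1.differentiable (by norm_num) z
      have d2 : DifferentiableAt ℂ EE2 z := s2.differentiable (by norm_num) z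
      -- the directions for E1
      have a0 : fderiv ℂ EE1 z (Pi.single 0 1) = -2 * z 0 := by
        refine dir EE1 z 0 (EE1 z) (-2 * z 0) (-1) d1 fun s => ?_
        simp [EE1, E1, nu, Function.update]
        ring
      have a1 : fderiv ℂ EE1 z (Pi.single 1 1) = 2 * (1 + z 2 * z 1) := by
        refine dir EE1 z 1 (EE1 z) (2 * (1 + z 2 * z 1)) (z 2) d1 fun s => ?_
        simp [EE1, E1, nu, Function.update]
        ring
      have a4 : fderiv ℂ EE1 z (Pi.single 4 1) = -z 3 := by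
        refine dir EE1 z 4 (EE1 z) (-z 3) 0 d1 fun s => ?_
        simp [EE1, E1, nu, Function.update]
        ring
      have a6 : fderiv ℂ EE1 z (Pi.single 6 1) = -z 5 := by
        refine dir EE1 z 6 (EE1 z) (-z 5) 0 d1 fun s => ?_
        simp [EE1, E1, nu, Function.update]
        ring
      have a7 : fderiv ℂ EE1 z (Pi.single 7 1) = 0 := by
        refine dir EE1 z 7 (EE1 z) 0 0 d1 fun s => ?_
        simp [EE1, E1, nu, Function.update]
      have a8 : fderiv ℂ EE1 z (Pi.single 8 1) = 0 := by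
        refine dir EE1 z 8 (EE1 z) 0 0 d1 fun s => ?_
        simp [EE1, E1, nu, Function.update]
      have a9 : fderiv ℂ EE1 z (Pi.single 9 1) = 0 := by
        refine dir EE1 z 9 (EE1 z) 0 0 d1 fun s => ?_
        simp [EE1, E1, nu, Function.update]
      have b7 : fderiv ℂ EE2 z (Pi.single 7 1) =
          -1 + z 5 * (z 2 * z 6 * ky (z 0) (z 1) (z 2) + z 2 * z 3 * z 8) := by
        refine dir EE2 z 7 (EE2 z)
          (-1 + z 5 * (z 2 * z 6 * ky (z 0) (z 1) (z 2) + z 2 * z 3 * z 8)) 0 d2 fun s => ?_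
        simp [EE2, E2, Function.update]
        ring
      have b8 : fderiv ℂ EE2 z (Pi.single 8 1) =
          1 + z 5 * (z 2 * z 6 * kx (z 0) (z 1) (z 2) + z 2 * z 3 * z 7) := by
        refine dir EE2 z 8 (EE2 z)
          (1 + z 5 * (z 2 * z 6 * kx (z 0) (z 1) (z 2) + z 2 * z 3 * z 7)) 0 d2 fun s => ?_
        simp [EE2, E2, Function.update]
        ring
      have b9 : fderiv ℂ EE2 z (Pi.single 9 1) =
          -2 * (z 5 * (z 6 * kz (z 0) (z 1) (z 2) + z 3 * z 9)) := by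
        refine dir EE2 z 9 (EE2 z)
          (-2 * (z 5 * (z 6 * kz (z 0) (z 1) (z 2) + z 3 * z 9))) (-(z 5 * z 3)) d2 fun s => ?_
        simp [EE2, E2, Function.update]
        ring
      -- a vector with D1 = 0, D2 ≠ 0
      have hv2 : ∃ v : Fin 10 → ℂ, fderiv ℂ EE1 z v = 0 ∧ fderiv ℂ EE2 z v ≠ 0 := by
        rcases hGR.2 U z hW with h | h | h
        · exact ⟨Pi.single 7 1, a7, by rw [b7]; exact h⟩
        · exact ⟨Pi.single 8 1, a8, by rw [b8]; exact h⟩
        · refine ⟨Pi.single 9 1, a9, ?_⟩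
          rw [b9]
          exact mul_ne_zero (by norm_num) h
      have hv1 : ∃ v : Fin 10 → ℂ, fderiv ℂ EE1 z v ≠ 0 := by
        by_cases ha : z 0 = 0
        · by_cases hb : 1 + z 2 * z 1 = 0
          · have hn := hGR.1 (z 0) (z 1) (z 2) ht ha hb
            by_cases hr : z 3 = 0
            · refine ⟨Pi.single 6 1, ?_⟩
              rw [a6]
              intro hs
              apply hn
              have hs' : z 5 = 0 := by simpa using hs
              have := e1
              simp only [EE1, E1, hr, hs', zero_mul, sub_zero] at this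
              exact this
            · refine ⟨Pi.single 4 1, ?_⟩
              rw [a4]
              simpa using hr
          · refine ⟨Pi.single 1 1, ?_⟩
            rw [a1]
            exact mul_ne_zero (by norm_num) hb
        · refine ⟨Pi.single 0 1, ?_⟩
          rw [a0]
          exact mul_ne_zero (by norm_num) ha
      obtain ⟨v1, hv1⟩ := hv1
      obtain ⟨v2, hv20, hv2⟩ := hv2
      have hD : HasFDerivAt (𝕜 := ℝ) (fun y : Fin 10 → ℂ => ((0 : Fin 0 → ℝ), (EE1 y, EE2 y)))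
          ((0 : (Fin 10 → ℂ) →L[ℝ] (Fin 0 → ℝ)).prod
            (((fderiv ℂ EE1 z).restrictScalars ℝ).prod ((fderiv ℂ EE2 z).restrictScalars ℝ))) z := by
        exact (hasFDerivAt_const _ _).prodMk
          ((d1.hasFDerivAt.restrictScalars ℝ).prodMk (d2.hasFDerivAt.restrictScalars ℝ))
      have hD' : fderiv ℝ (fun y : Fin 10 → ℂ => ((0 : Fin 0 → ℝ), (EE1 y, EE2 y))) z = _ := hD.fderiv
      rw [hD']
      rintro ⟨u, α, β⟩
      refine ⟨(α / fderiv ℂ EE1 z v1) • v1 +
        ((β - α / fderiv ℂ EE1 z v1 * fderiv ℂ EE2 z v1) / fderiv ℂ EE2 z v2) • v2, ?_⟩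
      refine Prod.ext (Subsingleton.elim _ _) (Prod.ext ?_ ?_)
      · show fderiv ℂ EE1 z _ = α
        rw [map_add, map_smul, map_smul, hv20, smul_eq_mul, smul_eq_mul]
        field_simp
        ring
      · show fderiv ℂ EE2 z _ = β
        rw [map_add, map_smul, map_smul, smul_eq_mul, smul_eq_mul]
        field_simp
        ring
  have hset : {x | x ∈ C10 U ∧ (fun _ : Fin 10 → ℂ => (0 : Fin 0 → ℝ)) x = 0} = C10 U := by
    ext x; simp
  rw [hset] at key
  exact key

end Pool.Agent.Helper89.FX
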