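import Pool.Agent.Helper87.FX.StB

set_option autoImplicit false

namespace Pool.Agent.Helper89.FX

open Set Topology Metric Filter
open scoped ContDiff
open Pool.Agent.Helper87.FX

theorem abs_le_of_cell {d : ℕ} (c : Fin d → ℤ) (x y : Fin d → ℝ) (hx : x ∈ cell c)
    (hy : y ∈ cell c) (i : Fin d) : |x i - y i| ≤ 1 := by
  have h1 := hx i
  have h2 := hy i
  have h3 : (((c i + 1) / 2 : ℤ) : ℝ) ≤ ((c i / 2 : ℤ) : ℝ) + 1 := by
    have : (c i + 1) / 2 ≤ c i / 2 + 1 := by omega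
    exact_mod_cast this
  rw [abs_le]
  constructor
  · linarith [h1.1, h1.2, h2.1, h2.2]
  · linarith [h1.1, h1.2, h2.1, h2.2]

theorem ky_bound {d : ℕ} (M : ℕ) (x : Fin d → ℝ) (hx : x ∈ bx d M) (i : Fin d) :
    -(2 * (M : ℤ)) - 1 ≤ ky x i ∧ ky x i ≤ 2 * (M : ℤ) + 1 := by
  have h := hx i
  rw [abs_le] at h
  have h1 : ((-(M : ℤ) : ℤ) : ℝ) ≤ x i := by push_cast; exact h.1
  have h2 : x i ≤ ((M : ℤ) : ℝ) := by push_cast; exact h.2
  have h3 : -(M : ℤ) ≤ ⌊x i⌋ := Int.le_floor.mpr h1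
  have h4 : ⌈x i⌉ ≤ (M : ℤ) := Int.ceil_le.mpr h2
  have h5 : ⌊x i⌋ ≤ ⌈x i⌉ := Int.floor_le_ceil _
  unfold ky
  constructor <;> omega

theorem hGRD : StGRX → StKEY → StGRD := by
  intro hGRX hKEY V _ Y hWC d A O r hA hO hAO hr hrY
  obtain ⟨k1, k2, k3, k4, k5⟩ := hKEY d
  obtain ⟨δ, hδ, hth⟩ := hA.exists_thickening_subset_open hO hAO
  obtain ⟨n0, hn0⟩ := exists_nat_one_div_lt hδ
  let n : ℝ := (n0 : ℝ) + 1
  have hn : 0 < n := by positivity
  have hnδ : 1 / n < δ := hn0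
  -- the bound
  have hnA : IsCompact ((fun x : Fin d → ℝ => n • x) '' A) :=
    hA.image (continuous_const_smul n)
  obtain ⟨C, hC⟩ := hnA.isBounded.exists_norm_le
  obtain ⟨M, hM⟩ := exists_nat_ge C
  have hAM : ∀ a ∈ A, n • a ∈ bx d M := by
    intro a ha i
    have h1 := hC (n • a) ⟨a, ha, rfl⟩
    have h2 := norm_le_pi_norm (n • a) i
    rw [Real.norm_eq_abs] at h2
    linarith
  let T : Set (Fin d → ℤ) := {c | (∀ i, -(2 * (M : ℤ)) - 1 ≤ c i ∧ c i ≤ 2 * (M : ℤ) + 1) ∧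
    ∃ a ∈ A, n • a ∈ cell c}
  have hTfin : T.Finite := by
    apply (Set.finite_Icc (fun _ : Fin d => -(2 * (M : ℤ)) - 1) (fun _ => 2 * (M : ℤ) + 1)).subset
    intro c hc
    exact ⟨fun i => (hc.1 i).1, fun i => (hc.1 i).2⟩
  let S : Set (Fin d → ℝ) := ⋃ c ∈ T, cell c
  have hScl : IsClosed S := hTfin.isClosed_biUnion fun c _ => k1 c
  have hSsat : Sat S := by
    intro x y hxy hx
    simp only [S, mem_iUnion] at hx ⊢
    obtain ⟨c, hc, hxc⟩ := hx
    exact ⟨c, hc, k3 c x y hxy hxc⟩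
  have hAS : ∀ a ∈ A, n • a ∈ S := by
    intro a ha
    simp only [S, mem_iUnion]
    refine ⟨ky (n • a), ⟨?_, a, ha, k2 _⟩, k2 _⟩
    intro i
    exact ky_bound M _ (hAM a ha) i
  have hSO : ∀ x ∈ S, n⁻¹ • x ∈ O := by
    intro x hx
    simp only [S, mem_iUnion] at hx
    obtain ⟨c, ⟨-, a, ha, hac⟩, hxc⟩ := hx
    apply hth
    rw [mem_thickening_iff]
    refine ⟨a, ha, ?_⟩
    refine lt_of_le_of_lt ?_ hnδ
    rw [dist_pi_le_iff (by positivity)]
    intro i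
    have h1 := abs_le_of_cell c x (n • a) hxc hac i
    rw [Real.dist_eq]
    have h2 : (n⁻¹ • x) i - a i = n⁻¹ * (x i - (n • a) i) := by
      simp only [Pi.smul_apply, smul_eq_mul]
      field_simp
    rw [h2, abs_mul, abs_of_pos (inv_pos.mpr hn), one_div]
    calc n⁻¹ * |x i - (n • a) i| ≤ n⁻¹ * 1 :=
          mul_le_mul_of_nonneg_left h1 (inv_pos.mpr hn).le
      _ = n⁻¹ := mul_one _
  let f : (Fin d → ℝ) → V := fun x => r (n⁻¹ • x)
  have hf : ContinuousOn f S := by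
    apply hr.comp (continuous_const_smul n⁻¹).continuousOn
    intro x hx
    exact hSO x hx
  have hfY : MapsTo f S Y := fun x hx => hrY (hSO x hx)
  obtain ⟨f', hf', hf'Y, hf'e⟩ := hGRX V Y hWC d M S f hScl hSsat hf hfY
  let κ : (Fin d → ℝ) → Fin d → ℝ := fun y i => max (-(M : ℝ)) (min (M : ℝ) (y i))
  have hκ : Continuous κ := by
    refine continuous_pi fun i => ?_
    exact continuous_const.max (continuous_const.min (continuous_apply i))
  have hκM : ∀ y, κ y ∈ bx d M := by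
    intro y i
    have h0 : (0 : ℝ) ≤ M := Nat.cast_nonneg M
    rw [abs_le]
    refine ⟨le_max_left _ _, max_le (by linarith) (min_le_left _ _)⟩
  have hκe : ∀ y ∈ bx d M, κ y = y := by
    intro y hy
    funext i
    have h := hy i
    rw [abs_le] at h
    show max (-(M : ℝ)) (min (M : ℝ) (y i)) = y i
    rw [min_eq_right h.2, max_eq_right h.1]
  refine ⟨fun x => f' (κ (n • x)), ?_, ?_, ?_⟩
  · rw [← continuousOn_univ]
    apply hf'.comp (hκ.comp (continuous_const_smul n)).continuousOn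
    intro x _
    exact Or.inr (hκM _)
  · intro x
    exact hf'Y (Or.inr (hκM _))
  · intro x hx
    show f' (κ (n • x)) = r x
    rw [hκe _ (hAM x hx), hf'e (hAS x hx)]
    show r (n⁻¹ • n • x) = r x
    rw [smul_smul, inv_mul_cancel₀ hn.ne', one_smul]

end Pool.Agent.Helper89.FX
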